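import Pool.Agent.Helper87.RP.Defs

/-! Module U3: the certificate given by the boundary of the crosspolytope. -/

namespace Pool.Agent.Helper24.RP

open Finset Pool.Agent.Helper87.RP

section chains

variable {E : Type}

theorem dd_single (l : List E) (a : ZMod 2) : dd (Finsupp.single l a) = a • bd l := by
  simp [dd, Finsupp.linearCombination_single]

theorem cone_single (b : E) (l : List E) (a : ZMod 2) :
    cone b (Finsupp.single l a) = Finsupp.single (b :: l) a := by
  simp [cone, Finsupp.lmapDomain_apply, Finsupp.mapDomain_single]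

theorem nu_single [Neg E] (l : List E) (a : ZMod 2) :
    nu (Finsupp.single l a) = Finsupp.single (l.map Neg.neg) a := by
  simp [nu, Finsupp.lmapDomain_apply, Finsupp.mapDomain_single]

theorem dd_cone (b : E) (x : Ch E) : dd (cone b x) = x + cone b (dd x) := by
  induction x using Finsupp.induction_linear with
  | zero => simp
  | add f g hf hg => rw [map_add, map_add, hf, hg, map_add, map_add]; abel
  | single l a =>
    rw [cone_single, dd_single, dd_single, bd, smul_add, map_smul]
    congr 1
    simp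

theorem bd_map_neg [Neg E] (l : List E) : bd (l.map Neg.neg) = nu (bd l) := by
  induction l with
  | nil => simp [bd]
  | cons x l ih =>
    rw [List.map_cons, bd, bd, map_add, nu_single, ih]
    congr 1
    simp only [nu, Finsupp.lmapDomain_apply]
    rw [← Finsupp.mapDomain_comp, ← Finsupp.mapDomain_comp]
    rfl

theorem dd_nu [Neg E] (x : Ch E) : dd (nu x) = nu (dd x) := by
  induction x using Finsupp.induction_linear with
  | zero => simp
  | add f g hf hg => rw [map_add, map_add, hf, hg, map_add, map_add]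
  | single l a => rw [nu_single, dd_single, dd_single, map_smul, bd_map_neg]

theorem nu_nu [InvolutiveNeg E] (x : Ch E) : nu (nu x) = x := by
  induction x using Finsupp.induction_linear with
  | zero => simp
  | add f g hf hg => rw [map_add, map_add, hf, hg]
  | single l a =>
    rw [nu_single, nu_single, List.map_map]
    congr 1
    have : (Neg.neg ∘ Neg.neg : E → E) = id := by
      funext x
      simp
    rw [this, List.map_id]

theorem ch_add_self (x : Ch E) : x + x = 0 := by
  ext l
  rw [Finsupp.add_apply, Finsupp.zero_apply]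
  exact CharTwo.add_self_eq_zero _

end chains

/-- The vertices of the crosspolytope. -/
noncomputable def vtx (n j : ℕ) : EuclideanSpace ℝ (Fin (n + 1)) :=
  if h : j < n + 1 then EuclideanSpace.single ⟨j, h⟩ (1 : ℝ) else 0

/-- The chains of the crosspolytope. -/
noncomputable def cc (n : ℕ) : ℕ → Ch (EuclideanSpace ℝ (Fin (n + 1)))
  | 0 => Finsupp.single [vtx n 0] 1
  | j + 1 => cone (vtx n (j + 1)) (cc n j + nu (cc n j))

theorem dd_cc_zero (n : ℕ) : dd (cc n 0) = Finsupp.single [] 1 := by
  simp [cc, dd_single, bd]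

theorem dd_full (n j : ℕ) : dd (cc n j + nu (cc n j)) = 0 ∧
    dd (cc n (j + 1)) = cc n j + nu (cc n j) := by
  induction j with
  | zero =>
    have h : dd (cc n 0 + nu (cc n 0)) = 0 := by
      rw [map_add, dd_nu, dd_cc_zero, nu_single, List.map_nil]
      exact ch_add_self _
    refine ⟨h, ?_⟩
    show dd (cone (vtx n (0 + 1)) (cc n 0 + nu (cc n 0))) = _
    rw [dd_cone, h, map_zero, add_zero]
  | succ j ih =>
    have h : dd (cc n (j + 1) + nu (cc n (j + 1))) = 0 := by
      rw [map_add, dd_nu, ih.2, map_add, nu_nu, add_comm (nu (cc n j)) (cc n j)]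
      exact ch_add_self _
    refine ⟨h, ?_⟩
    show dd (cone (vtx n (j + 1 + 1)) (cc n (j + 1) + nu (cc n (j + 1)))) = _
    rw [dd_cone, h, map_zero, add_zero]

/-- The lists occurring in the chains. -/
def Good (n : ℕ) : ℕ → List (EuclideanSpace ℝ (Fin (n + 1))) → Prop
  | 0, l => l = [vtx n 0] ∨ l = [-vtx n 0]
  | j + 1, l => ∃ l', (l = vtx n (j + 1) :: l' ∨ l = (-vtx n (j + 1)) :: l') ∧ Good n j l'

theorem Good.neg {n : ℕ} : ∀ {j : ℕ} {l : List (EuclideanSpace ℝ (Fin (n + 1)))}, Good n j l →
    Good n j (l.map Neg.neg)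
  | 0, l, h => by
    rcases h with rfl | rfl
    · right; simp
    · left; simp
  | j + 1, l, ⟨l', h, h'⟩ => by
    refine ⟨l'.map Neg.neg, ?_, Good.neg h'⟩
    rcases h with rfl | rfl
    · right; simp
    · left; simp

theorem good_of_mem (n : ℕ) : ∀ (j : ℕ), ∀ l ∈ (cc n j).support, Good n j l := by
  classical
  intro j
  induction j with
  | zero =>
    intro l hl
    rw [cc] at hl
    have := Finsupp.support_single_subset hl
    rw [mem_singleton] at this
    exact Or.inl this
  | succ j ih =>
    intro l hl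
    rw [cc] at hl
    have h1 : l ∈ (cc n j + nu (cc n j)).support.image (List.cons (vtx n (j + 1))) :=
      Finsupp.mapDomain_support hl
    obtain ⟨l', hl', rfl⟩ := mem_image.1 h1
    refine ⟨l', Or.inl rfl, ?_⟩
    rcases mem_union.1 (Finsupp.support_add hl') with h | h
    · exact ih l' h
    · have h2 : l' ∈ (cc n j).support.image (List.map Neg.neg) := Finsupp.mapDomain_support h
      obtain ⟨l'', hl'', rfl⟩ := mem_image.1 h2
      exact (ih l'' hl'').neg

theorem Good.length {n : ℕ} : ∀ {j : ℕ} {l : List (EuclideanSpace ℝ (Fin (n + 1)))}, Good n j l →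
    l.length = j + 1
  | 0, l, h => by
    rcases h with rfl | rfl <;> rfl
  | j + 1, l, ⟨l', h, h'⟩ => by
    have := Good.length h'
    rcases h with rfl | rfl <;> simp [this]

theorem vtx_apply {n j : ℕ} (hj : j ≤ n) (i : Fin (n + 1)) :
    vtx n j i = if (i : ℕ) = j then 1 else 0 := by
  have h : j < n + 1 := by omega
  rw [vtx, dif_pos h]
  by_cases hi : (i : ℕ) = j
  · have : i = ⟨j, h⟩ := Fin.ext hi
    subst this
    simp
  · have : i ≠ ⟨j, h⟩ := fun h' => hi (by rw [h'])
    simp [hi, this]

theorem Good.sign {n : ℕ} : ∀ {j : ℕ} {l : List (EuclideanSpace ℝ (Fin (n + 1)))}, j ≤ n →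
    Good n j l → (∀ y ∈ l, ∀ i : Fin (n + 1), j < (i : ℕ) → y i = 0) ∧
    ∃ σ : Fin (n + 1) → ℝ, (∀ i, σ i = 1 ∨ σ i = -1) ∧
      ∀ y ∈ l, (∀ i, 0 ≤ σ i * y i) ∧ ∑ i, σ i * y i = 1 := by
  have key : ∀ (j : ℕ) (hj : j ≤ n) (τ : ℝ) (_ : τ = 1 ∨ τ = -1) (σ : Fin (n + 1) → ℝ)
      (_ : ∀ i : Fin (n + 1), (i : ℕ) = j → σ i = τ),
      (∀ i, 0 ≤ σ i * (τ • vtx n j) i) ∧ ∑ i, σ i * (τ • vtx n j) i = 1 := by
    intro j hj τ hτ σ hσ
    have hval : ∀ i : Fin (n + 1), σ i * (τ • vtx n j) i = if (i : ℕ) = j then 1 else 0 := by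
      intro i
      have h1 : (τ • vtx n j) i = τ * vtx n j i := by simp
      rw [h1, vtx_apply hj]
      by_cases hi : (i : ℕ) = j
      · rw [hσ i hi, if_pos hi]
        rcases hτ with rfl | rfl <;> norm_num
      · simp [hi]
    constructor
    · intro i
      rw [hval i]
      split_ifs <;> norm_num
    · simp_rw [hval]
      have h : j < n + 1 := by omega
      rw [Finset.sum_eq_single (⟨j, h⟩ : Fin (n + 1))]
      · simp
      · intro b _ hb
        rw [if_neg]
        intro h'
        exact hb (Fin.ext h')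
      · intro h'
        exact absurd (mem_univ _) h'
  have vz : ∀ (j : ℕ) (hj : j ≤ n) (τ : ℝ) (i : Fin (n + 1)), (i : ℕ) ≠ j →
      (τ • vtx n j) i = 0 := by
    intro j hj τ i hi
    have h1 : (τ • vtx n j) i = τ * vtx n j i := by simp
    rw [h1, vtx_apply hj, if_neg hi, mul_zero]
  intro j
  induction j with
  | zero =>
    intro l hj h
    obtain ⟨τ, hτ, rfl⟩ : ∃ τ : ℝ, (τ = 1 ∨ τ = -1) ∧ l = [τ • vtx n 0] := by
      rcases h with rfl | rfl
      · exact ⟨1, Or.inl rfl, by rw [one_smul]⟩
      · exact ⟨-1, Or.inr rfl, by rw [neg_one_smul]⟩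
    refine ⟨?_, fun _ => τ, fun _ => hτ, ?_⟩
    · intro y hy i hi
      rw [List.mem_singleton] at hy
      subst hy
      exact vz 0 hj τ i (by omega)
    · intro y hy
      rw [List.mem_singleton] at hy
      subst hy
      exact key 0 hj τ hτ _ (fun _ _ => rfl)
  | succ j ih =>
    rintro l hj ⟨l', h, h'⟩
    obtain ⟨τ, hτ, rfl⟩ : ∃ τ : ℝ, (τ = 1 ∨ τ = -1) ∧ l = (τ • vtx n (j + 1)) :: l' := by
      rcases h with rfl | rfl
      · exact ⟨1, Or.inl rfl, by rw [one_smul]⟩
      · exact ⟨-1, Or.inr rfl, by rw [neg_one_smul]⟩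
    obtain ⟨h0, σ, hσ, hσ'⟩ := ih (by omega) h'
    refine ⟨?_, fun i => if (i : ℕ) = j + 1 then τ else σ i, ?_, ?_⟩
    · intro y hy i hi
      rcases List.mem_cons.1 hy with rfl | hy
      · exact vz (j + 1) hj τ i (by omega)
      · exact h0 y hy i (by omega)
    · intro i
      show (if (i : ℕ) = j + 1 then τ else σ i) = 1 ∨ (if (i : ℕ) = j + 1 then τ else σ i) = -1
      split_ifs
      · exact hτ
      · exact hσ i
    · intro y hy
      rcases List.mem_cons.1 hy with rfl | hy
      · exact key (j + 1) hj τ hτ _ (fun i hi => by simp [hi])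
      · have hval : ∀ i : Fin (n + 1),
            (if (i : ℕ) = j + 1 then τ else σ i) * y i = σ i * y i := by
          intro i
          by_cases hi : (i : ℕ) = j + 1
          · rw [h0 y hy i (by omega), mul_zero, mul_zero]
          · rw [if_neg hi]
        constructor
        · intro i
          show 0 ≤ (if (i : ℕ) = j + 1 then τ else σ i) * y i
          rw [hval i]
          exact (hσ' y hy).1 i
        · show ∑ i : Fin (n + 1), (if (i : ℕ) = j + 1 then τ else σ i) * y i = 1
          simp_rw [hval]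
          exact (hσ' y hy).2

/-- module U3 -/
theorem cert_cross (n : ℕ) : ∃ c : ℕ → Ch (EuclideanSpace ℝ (Fin (n + 1))), Cert n c ∧
    ∀ j ≤ n, ∀ l ∈ (c j).support, ∀ x ∈ convexHull ℝ {y | y ∈ l}, ∑ i, |x i| = 1 := by
  refine ⟨cc n, ⟨dd_cc_zero n, fun j _ => (dd_full n j).2,
    fun j _ l hl => (good_of_mem n j l hl).length⟩, ?_⟩
  intro j hj l hl x hx
  obtain ⟨-, σ, hσ, hσ'⟩ := (good_of_mem n j l hl).sign hj
  let D : Set (EuclideanSpace ℝ (Fin (n + 1))) :=
    {x | (∀ i, 0 ≤ σ i * x i) ∧ ∑ i, σ i * x i = 1}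
  have hconv : Convex ℝ D := by
    intro u hu v hv a b ha hb hab
    constructor
    · intro i
      have : σ i * (a • u + b • v) i = a * (σ i * u i) + b * (σ i * v i) := by
        simp
        ring
      rw [this]
      exact add_nonneg (mul_nonneg ha (hu.1 i)) (mul_nonneg hb (hv.1 i))
    · have : ∀ i, σ i * (a • u + b • v) i = a * (σ i * u i) + b * (σ i * v i) := by
        intro i
        simp
        ring
      simp_rw [this]
      rw [sum_add_distrib, ← mul_sum, ← mul_sum, hu.2, hv.2, mul_one, mul_one, hab]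
  have hD : x ∈ D := convexHull_min (fun y hy => hσ' y hy) hconv hx
  rw [← hD.2]
  refine sum_congr rfl fun i _ => ?_
  have h1 := hD.1 i
  rcases hσ i with h | h
  · rw [h, one_mul] at h1 ⊢
    exact abs_of_nonneg h1
  · rw [h] at h1 ⊢
    rw [neg_one_mul] at h1 ⊢
    exact abs_of_nonpos (by linarith)

end Pool.Agent.Helper24.RP
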